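import Pool.Agent.H710Z.NS.Main

set_option autoImplicit false

open Set MeasureTheory Filter
open scoped ContDiff Real

namespace Pool.Agent.Results.MP_6bf1e5_an.AComplexBlowup

/-- Partial derivative `∂f/∂x_j` of `f(x,t)`. -/
noncomputable def dx {n : ℕ} (j : Fin n) (f : (Fin n → ℝ) → ℝ → ℂ) (x : Fin n → ℝ) (t : ℝ) : ℂ :=
  deriv (fun s : ℝ => f (x + s • (Pi.single j 1 : Fin n → ℝ)) t) 0

/-- Partial derivative `∂f/∂t` of `f(x,t)`. -/
noncomputable def dt {n : ℕ} (f : (Fin n → ℝ) → ℝ → ℂ) (x : Fin n → ℝ) (t : ℝ) : ℂ :=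
  deriv (fun s : ℝ => f x s) t

/-- `(u, p)` is a smooth complex-valued solution of the unforced incompressible Navier–Stokes
system with viscosity `ν` on `ℝⁿ × I`, with period `ℓ j` in `x_j` and initial value `u0`. -/
structure IsPeriodicSolution {n : ℕ} (ν : ℝ) (ℓ : Fin n → ℝ) (u0 : Fin n → (Fin n → ℝ) → ℂ)
    (I : Set ℝ) (u : Fin n → (Fin n → ℝ) → ℝ → ℂ) (p : (Fin n → ℝ) → ℝ → ℂ) : Prop where
  smooth_u : ∀ i, ContDiffOn ℝ ∞ (fun z : (Fin n → ℝ) × ℝ => u i z.1 z.2) (univ ×ˢ I)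
  smooth_p : ContDiffOn ℝ ∞ (fun z : (Fin n → ℝ) × ℝ => p z.1 z.2) (univ ×ˢ I)
  periodic_u : ∀ i j x, ∀ t ∈ I, u i (x + Pi.single j (ℓ j)) t = u i x t
  periodic_p : ∀ j x, ∀ t ∈ I, p (x + Pi.single j (ℓ j)) t = p x t
  momentum : ∀ i x, ∀ t ∈ interior I,
    dt (u i) x t + ∑ j, u j x t * dx j (u i) x t = ν * ∑ j, dx j (dx j (u i)) x t - dx i p x t
  incompressible : ∀ x, ∀ t ∈ interior I, ∑ j, dx j (u j) x t = 0
  initial : ∀ i x, u i x 0 = u0 i x

/-- The four-mode initial field: with `e = exp(2πi x_b)`,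
`u_a = (L/π) sin(2π x_a/L) (A e + 2A² e²)`, `u_b = (i/π) cos(2π x_a/L) (A e + A² e²)`,
all other components zero. -/
noncomputable def datum {n : ℕ} (a b : Fin n) (L A : ℝ) (i : Fin n) (x : Fin n → ℝ) : ℂ :=
  if i = a then (L / π : ℂ) * Real.sin (2 * π * x a / L) *
      (A * Complex.exp (2 * π * Complex.I * x b) +
        2 * A ^ 2 * Complex.exp (2 * (2 * π * Complex.I * x b)))
  else if i = b then (Complex.I / π) * Real.cos (2 * π * x a / L) *
      (A * Complex.exp (2 * π * Complex.I * x b) +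
        A ^ 2 * Complex.exp (2 * (2 * π * Complex.I * x b)))
  else 0

open H710NS

section glue

variable {n : ℕ} {ℓ : Fin n → ℝ} {T : ℝ}

lemma dx_eq {f : (Fin n → ℝ) → ℝ → ℂ} {F : (Fin n → ℝ) × ℝ → ℂ} (hF : Good ℓ T F) {t : ℝ}
    (ht : t ∈ Icc 0 T) (h : ∀ x, f x t = F (x, t)) (j : Fin n) (x : Fin n → ℝ) :
    dx j f x t = Dx T j F (x, t) := by
  unfold dx
  simp only [h]
  simpa using (hF.hasDerivAt_x x (Pi.single j 1) ht 0).deriv

lemma sol_of {ν : ℝ} {u0 : Fin n → (Fin n → ℝ) → ℂ} {I : Set ℝ}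
    {u : Fin n → (Fin n → ℝ) → ℝ → ℂ} {p : (Fin n → ℝ) → ℝ → ℂ} (hT : 0 < T)
    (hI : Icc 0 T ⊆ I) (h : IsPeriodicSolution ν ℓ u0 I u p) :
    Sol ℓ T ν (fun i z => u i z.1 z.2) (fun z => p z.1 z.2) := by
  have hU : ∀ i, Good ℓ T fun z => u i z.1 z.2 := fun i =>
    ⟨(h.smooth_u i).mono (prod_mono Subset.rfl hI), fun x j t ht => h.periodic_u i j x t (hI ht)⟩
  have hP : Good ℓ T fun z => p z.1 z.2 :=
    ⟨h.smooth_p.mono (prod_mono Subset.rfl hI), fun x j t ht => h.periodic_p j x t (hI ht)⟩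
  have hint : ∀ t ∈ Ioo 0 T, t ∈ interior I := fun t ht =>
    interior_mono hI (by rw [interior_Icc]; exact ht)
  refine ⟨hU, hP, fun i x t ht => ?_, fun x t ht => ?_⟩
  · have ht' := Ioo_subset_Icc_self ht
    have h1 := h.momentum i x t (hint t ht)
    have h2 : ∀ j y, dx j (u i) y t = Dx T j (fun z => u i z.1 z.2) (y, t) :=
      fun j y => dx_eq (hU i) ht' (fun _ => rfl) j y
    have h3 : ∀ j, dx j (dx j (u i)) x t = Dx T j (Dx T j fun z => u i z.1 z.2) (x, t) :=
      fun j => dx_eq ((hU i).DD hT _) ht' (h2 j) j x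
    have h4 : dt (u i) x t = DD T (0, 1) (fun z => u i z.1 z.2) (x, t) :=
      ((hU i).hasDerivAt_t x ht).deriv
    rw [h4, dx_eq hP ht' (fun _ => rfl)] at h1
    simp only [h2, h3] at h1
    exact h1
  · have h1 := h.incompressible x t (hint t ht)
    rw [← h1]
    exact Finset.sum_congr rfl fun j _ =>
      (dx_eq (hU j) (Ioo_subset_Icc_self ht) (fun _ => rfl) j x).symm

noncomputable def cf (a b : Fin n) (L A : ℝ) (i : Fin n) (y : ℕ × ℤ) : ℂ :=
  (if i = a then 2 * π * y.1 else if i = b then -(2 * π * y.2 / L) else 0 : ℂ) *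
    (Complex.I * (L / (4 * π ^ 2)) * A ^ y.1 * g0 y.1 y.2)

def SS : Finset (ℕ × ℤ) := {(1, -1), (1, 1), (2, -1), (2, 1)}

lemma mF_md {a b : Fin n} (hab : a ≠ b) (hb : ℓ b = 1) (κ p : ℤ) (x : Fin n → ℝ) :
    UnitAddTorus.mFourier (md a b κ p) (pr ℓ x) =
      Complex.exp (κ * (((2 * π * x a / ℓ a : ℝ) : ℂ) * Complex.I)) *
        Complex.exp (p * (2 * π * Complex.I * x b)) := by
  rw [mF_pr, ← Complex.exp_add,
    Finset.sum_eq_add_of_mem a b (Finset.mem_univ _) (Finset.mem_univ _) hab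
      (fun c _ hc => by simp [md_plane κ p c hc.1 hc.2]), md_a hab, md_b hab, hb]
  congr 1
  push_cast
  ring

lemma datum_eq {a b : Fin n} (hab : a ≠ b) (hb : ℓ b = 1) (ha : ℓ a ≠ 0) (A : ℝ) (i : Fin n)
    (x : Fin n → ℝ) : datum a b (ℓ a) A i x =
      ∑ y ∈ SS, cf a b (ℓ a) A i y * UnitAddTorus.mFourier (md a b y.2 y.1) (pr ℓ x) := by
  have hL : (ℓ a : ℂ) ≠ 0 := by exact_mod_cast ha
  have hpi : (π : ℂ) ≠ 0 := by exact_mod_cast Real.pi_ne_zero
  unfold SS
  rw [Finset.sum_insert (by decide), Finset.sum_insert (by decide), Finset.sum_insert (by decide),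
    Finset.sum_singleton]
  simp only [mF_md hab hb, cf, g0, datum, Complex.ofReal_sin, Complex.ofReal_cos, Complex.sin,
    Complex.cos]
  generalize ((2 * π * x a / ℓ a : ℝ) : ℂ) = z
  generalize (2 * π * Complex.I * x b : ℂ) = w
  have hba : ¬ b = a := hab.symm
  by_cases h1 : i = a
  · simp [h1]; field_simp; ring
  · by_cases h2 : i = b
    · simp [h2, hba]; field_simp; ring
    · simp [h1, h2]

lemma co_datum {a b : Fin n} (hℓ : ∀ j, 0 < ℓ j) (hab : a ≠ b) (hb : ℓ b = 1) (A : ℝ) (i : Fin n)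
    {F : (Fin n → ℝ) × ℝ → ℂ} (hF : ∀ x, F (x, 0) = datum a b (ℓ a) A i x) (k : Fin n → ℤ) :
    co ℓ F k 0 = ∑ y ∈ SS, cf a b (ℓ a) A i y * if k = md a b y.2 y.1 then 1 else 0 :=
  co_modes hℓ SS _ (fun y => md a b y.2 y.1)
    (fun x => by rw [hF, datum_eq hab hb (hℓ a).ne']) k

lemma mem_SS {y : ℕ × ℤ} : y ∈ SS ↔ (y.1 = 1 ∨ y.1 = 2) ∧ (y.2 = -1 ∨ y.2 = 1) := by
  obtain ⟨p, κ⟩ := y
  simp only [SS, Finset.mem_insert, Finset.mem_singleton, Prod.mk.injEq]
  tauto

end glue

/-- **Finite-time breakdown for complex-valued periodic Navier–Stokes in every dimension `n ≥ 2`.**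
Fix two different coordinates `a, b`, a viscosity `ν > 0` and a time `T > 0`. For almost every
period `L > 0` in the direction `x_a` (period `1` in all other directions) there is an amplitude
`A` such that the smooth, periodic, divergence-free, complex-valued four-mode field `datum a b L A`
is the initial value of no smooth periodic complex-valued solution on `ℝⁿ × I` for any time set `I`
containing `[0, T]` (for instance `I = [0, T]` or `I = [0, ∞)`). -/
theorem result (n : ℕ) (a b : Fin n) (hab : a ≠ b) (ν T : ℝ) (hν : 0 < ν) (hT : 0 < T) :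
    ∀ᵐ L : ℝ, 0 < L → ∃ A : ℝ,
      (∀ i, ContDiff ℝ ∞ (datum a b L A i)) ∧
      (∀ i j x, datum a b L A i (x + Pi.single j (Function.update (fun _ => (1 : ℝ)) a L j)) =
        datum a b L A i x) ∧
      (∀ x, ∑ j, dx j (fun y _ => datum a b L A j y) x 0 = 0) ∧
      ∀ I : Set ℝ, Icc 0 T ⊆ I → ¬ ∃ (u : Fin n → (Fin n → ℝ) → ℝ → ℂ) (p : (Fin n → ℝ) → ℝ → ℂ),
        IsPeriodicSolution ν (Function.update (fun _ => (1 : ℝ)) a L) (datum a b L A) I u p := by
  filter_upwards [ae_good hT hν] with L hgood hL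
  obtain ⟨θ, hθ, hbad⟩ := hgood hL
  set ℓ : Fin n → ℝ := Function.update (fun _ => (1 : ℝ)) a L with hℓdef
  have ha : ℓ a = L := by simp [hℓdef]
  have hb : ℓ b = 1 := by simp [hℓdef, Function.update_of_ne hab.symm]
  have hℓ : ∀ j, 0 < ℓ j := fun j => by
    by_cases h : j = a
    · rw [h, ha]; exact hL
    · simp [hℓdef, Function.update_of_ne h]
  have hsm : ∀ (A : ℝ) i, ContDiff ℝ ∞ (datum a b L A i) := by
    intro A i
    have h1 : ∀ j, ContDiff ℝ ∞ fun x : Fin n → ℝ => ((x j : ℝ) : ℂ) := fun j =>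
      Complex.ofRealCLM.contDiff.comp (contDiff_apply ℝ ℝ j)
    have h2 : ContDiff ℝ ∞ fun x : Fin n → ℝ => 2 * π * x a / L :=
      (contDiff_const.mul (contDiff_apply ℝ ℝ a)).div_const _
    have h3 : ContDiff ℝ ∞ fun x : Fin n → ℝ => (2 * π * Complex.I * x b : ℂ) :=
      contDiff_const.mul (h1 b)
    unfold datum
    split_ifs
    · exact (contDiff_const.mul (Complex.ofRealCLM.contDiff.comp h2.sin)).mul
        ((contDiff_const.mul h3.cexp).add (contDiff_const.mul (contDiff_const.mul h3).cexp))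
    · exact (contDiff_const.mul (Complex.ofRealCLM.contDiff.comp h2.cos)).mul
        ((contDiff_const.mul h3.cexp).add (contDiff_const.mul (contDiff_const.mul h3).cexp))
    · exact contDiff_const
  have hper : ∀ (A : ℝ) i j x, datum a b L A i (x + Pi.single j (ℓ j)) = datum a b L A i x := by
    intro A i j x
    have h1 : pr ℓ (x + Pi.single j (ℓ j)) = pr ℓ x := by
      rw [pr_add, add_eq_left]
      funext c
      by_cases hc : c = j
      · subst hc
        simp only [pr, Pi.single_eq_same, div_self (hℓ c).ne', Pi.zero_apply]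
        exact AddCircle.coe_period 1
      · simp [pr, Pi.single_eq_of_ne hc]
    rw [← ha, datum_eq hab hb (hℓ a).ne', datum_eq hab hb (hℓ a).ne', h1]
  refine ⟨2 / θ, hsm _, hper _, fun x => ?_, fun I hI ⟨u, p, h⟩ => hbad ?_⟩
  · generalize 2 / θ = A
    have hd : ∀ (κ q : ℤ) (j : Fin n), HasDerivAt (fun s : ℝ =>
        UnitAddTorus.mFourier (md a b κ q) (pr ℓ (x + s • (Pi.single j 1 : Fin n → ℝ))))
        (Complex.I * xi ℓ (md a b κ q) j * UnitAddTorus.mFourier (md a b κ q) (pr ℓ x)) 0 := by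
      intro κ q j
      have e1 : ∀ s : ℝ, UnitAddTorus.mFourier (md a b κ q)
          (pr ℓ (x + s • (Pi.single j 1 : Fin n → ℝ))) =
          Complex.exp (Complex.I * xi ℓ (md a b κ q) j * s) *
            UnitAddTorus.mFourier (md a b κ q) (pr ℓ x) := by
        intro s
        rw [pr_add, mF_add, mul_comm, mF_pr]
        congr 2
        rw [Finset.sum_eq_single j]
        · simp [xi]; ring
        · intro i _ hi; simp [Pi.single_eq_of_ne hi]
        · simp
      simp only [e1]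
      have h4 : HasDerivAt (fun s : ℝ => Complex.I * xi ℓ (md a b κ q) j * s)
          (Complex.I * xi ℓ (md a b κ q) j) 0 := by
        simpa using (Complex.ofRealCLM.hasDerivAt (x := (0 : ℝ))).const_mul
          (Complex.I * xi ℓ (md a b κ q) j)
      simpa using h4.cexp.mul_const (UnitAddTorus.mFourier (md a b κ q) (pr ℓ x))
    have e2 : ∀ j, dx j (fun y _ => datum a b L A j y) x 0 = ∑ y ∈ SS, cf a b L A j y *
        (Complex.I * xi ℓ (md a b y.2 y.1) j *
          UnitAddTorus.mFourier (md a b y.2 y.1) (pr ℓ x)) := by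
      intro j
      unfold dx
      simp only [← ha, datum_eq hab hb (hℓ a).ne']
      exact (HasDerivAt.fun_sum fun y _ => (hd y.2 y.1 j).const_mul _).deriv
    simp only [e2]
    rw [Finset.sum_comm]
    refine Finset.sum_eq_zero fun y _ => ?_
    rw [Finset.sum_eq_add_of_mem a b (Finset.mem_univ _) (Finset.mem_univ _) hab
      (fun c _ hc => by simp [cf, hc.1, hc.2])]
    simp only [cf, xi, md_a hab, md_b hab, ha, hb, if_true, if_neg hab.symm]
    push_cast
    ring
  · have hs := sol_of hT hI h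
    have hco := fun i k => co_datum hℓ hab hb (2 / θ) i (F := fun z => u i z.1 z.2)
      (fun x => by rw [ha]; exact h.initial i x) k
    rw [← ha]
    refine hs.decay hℓ hT hν hab hb θ hθ (fun i k hk => ?_) (fun i k hk => ?_) fun q κ => ?_
    · rw [hco]
      refine Finset.sum_eq_zero fun y hy => ?_
      rw [if_neg, mul_zero]
      rintro rfl
      rw [md_b hab] at hk
      rw [mem_SS] at hy
      omega
    · rw [hco]
      refine Finset.sum_eq_zero fun y _ => ?_
      rw [if_neg, mul_zero]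
      rintro rfl
      exact hk (md_plane _ _)
    · rw [hco]
      have e1 : ∀ y : ℕ × ℤ, md a b κ q = md a b y.2 y.1 ↔ (q, κ) = y := by
        intro y
        constructor
        · intro hxy
          have e1 := congrFun hxy a
          have e2 := congrFun hxy b
          simp only [md_a hab, md_b hab] at e1 e2
          exact Prod.ext (by exact_mod_cast e2) e1
        · rintro rfl; rfl
      simp only [e1, mul_ite, mul_one, mul_zero]
      rw [Finset.sum_ite_eq]
      split_ifs with hy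
      · simp [cf]
      · rw [mem_SS] at hy
        have : g0 q κ = 0 := by
          unfold g0
          split_ifs <;> first | rfl | (exfalso; simp only at hy; tauto)
        simp [this]

end Pool.Agent.Results.MP_6bf1e5_an.AComplexBlowup
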