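import Pool.Agent.H730Z.NS.Main

set_option autoImplicit false

namespace Pool.Agent.Results.MP_6bf1e5_an.LeiLinPeriodic

open Pool.Agent.H730Z.NSDefs
open scoped ContDiff

/-- Statement (B) holds for every smooth periodic divergence-free datum whose Lei-Lin norm is
smaller than `(3 √3 / 2) ν`. -/
theorem result (ν : ℝ) (hν : 0 < ν) (u0 : (Fin 3 → ℝ) → Fin 3 → ℝ) (hsm : ContDiff ℝ ∞ u0)
    (hper : ∀ x j, u0 (x + Pi.single j 1) = u0 x)
    (hdiv : ∀ x, ∑ i, pd i (fun y => u0 y i) x = 0)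
    (hsmall : leiLin u0 < 3 * Real.sqrt 3 / 2 * ν) :
    ∃ u p, IsAdmissible ν u0 u p :=
  Pool.Agent.H730Z.NS.main hν u0 hsm hper hdiv hsmall

end Pool.Agent.Results.MP_6bf1e5_an.LeiLinPeriodic
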